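import Pool.Agent.Helper8_BRW.Main

/-!
# Quenched tightness of the recentred maximum of branching random walk in random environment

Particles on `ℤ` jump with rate one to a uniformly chosen neighbour and split into two with rate
`ξ x` at the site `x`.  `law` is the quenched law of the genealogical marks and `maxPos ξ u0 ω t` the
position of the rightmost particle at time `t`; `med ξ u0 t` is its quenched median.
-/

set_option autoImplicit false

open MeasureTheory

namespace Pool.Agent.Results.MP_02df95_pr.QuenchedTightness

open BRW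

/-- For every random environment with `0 < a ≤ ξ x ≤ b` almost surely and every initial
configuration `1_{0} ≤ u0 ≤ C 1_{-ℕ}`, for almost every realisation of the environment
the family `M(t) - m(t)`, `t ≥ 0`, is tight under the quenched law. -/
theorem result {Ω : Type*} [MeasurableSpace Ω] (P : Measure Ω) (ξ : ℤ → Ω → ℝ) (a b : ℝ)
    (ha : 0 < a) (hξ : ∀ x, ∀ᵐ ω ∂P, a ≤ ξ x ω ∧ ξ x ω ≤ b) (C : ℕ) (u0 : ℤ → ℕ)
    (hu : IC C u0) : ∀ᵐ ω ∂P, Tight (fun x => ξ x ω) u0 := by
  filter_upwards [ae_all_iff.2 hξ] with ω hω
  exact BRW.H8.main a b (fun x => ξ x ω) ⟨ha, hω⟩ C u0 hu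

end Pool.Agent.Results.MP_02df95_pr.QuenchedTightness
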